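import Pool.Agent.Q200.HS.Base

/-!
# A general reduction principle
-/

open CategoryTheory MonoidalCategory

universe v u w

namespace Pool.Agent.Q200.HS

open Pool.Agent.Q28.HJ (pow powAdd retRight retLeft retIso shuffle)

variable {𝓜 : Type u} [Category.{v} 𝓜] [Preadditive 𝓜] [MonoidalCategory 𝓜]

/-- A property `P i M` of `Hom(L^i, M)` which passes to direct summands of direct sums, and from
`(i + 1, M ⊗ L)` to `(i, M)`. -/
structure Passes (L : 𝓜) (P : ℕ → 𝓜 → Prop) : Prop where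
  cover : ∀ (i : ℕ) {M : 𝓜}, Covers (P i) M → P i M
  untwist : ∀ (i : ℕ) {M : 𝓜}, P (i + 1) (M ⊗ L) → P i M

variable {L : 𝓜} {P : ℕ → 𝓜 → Prop}

lemma Passes.retract (h : Passes L P) (i : ℕ) {M N : 𝓜} (R : Retract M N) (hN : P i N) : P i M :=
  h.cover i (covers_of_retract R hN)

lemma Passes.untwists (h : Passes L P) (i k : ℕ) {M : 𝓜} (hM : P (i + k) (M ⊗ pow L k)) :
    P i M := by
  induction k generalizing M with
  | zero => exact h.retract i (retIso (ρ_ _).symm) hM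
  | succ k ih =>
    apply ih
    apply h.untwist
    exact h.retract _ (retIso (α_ _ _ _)) hM

variable {T : MotData.{v, u, w} 𝓜}

/-- from `M_W` for the almost diagonal `W` to `M_X ⊗ L^s` -/
lemma Passes.hyp (hP : Passes T.L P) (hT : T.Facts) (X : T.Hyp) {n d k s i : ℕ}
    (hd : 2 * T.deg X ∣ d) (hd0 : 0 < d) (hn : n = T.dim X + 2 * (s + k))
    (h : ∀ X' W : T.Hyp, T.dim X' = T.dim X → Relation.ReflTransGen T.Susp X' W → T.deg W = d →
      T.dim W = n → P (i + k) (T.prim W)) : P i (T.prim X ⊗ pow T.L s) := by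
  obtain ⟨X', W, h1, h2, h3, h4, ⟨R⟩⟩ := reach hT X hd hd0 hn
  apply hP.untwists i k
  have e : (T.prim X ⊗ pow T.L s) ⊗ pow T.L k ≅ T.prim X ⊗ pow T.L (s + k) :=
    α_ _ _ _ ≪≫ (tensorLeft _).mapIso (powAdd T.L s k).symm
  exact hP.retract _ ((retIso e).trans R) (h X' W h1 h2 h3 h4)

/-- from hypersurfaces to pieces -/
lemma Passes.piece [BraidedCategory 𝓜] (hP : Passes T.L P) (hT : T.Facts)
    (h : ∀ (X : T.Hyp) (s i : ℕ), P i (T.prim X ⊗ pow T.L s)) {N : 𝓜} (hN : Piece T N) (i : ℕ) :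
    P i N := by
  obtain ⟨n, s, M, hM, ⟨R⟩⟩ := hN
  refine hP.retract i R ?_
  obtain ⟨D, -, H⟩ := prod_retract hT hM
  obtain ⟨W, t, -, -, ⟨Q⟩⟩ := H 1 one_pos
  apply hP.untwists i t
  have e : (M ⊗ pow T.L s) ⊗ pow T.L t ≅ (M ⊗ pow T.L t) ⊗ pow T.L s :=
    α_ _ _ _ ≪≫ (tensorLeft M).mapIso (β_ _ _) ≪≫ (α_ _ _ _).symm
  exact hP.retract _ ((retIso e).trans (retRight Q _)) (h W s _)

/-- from pieces to all motives of the class `Gen` -/
lemma Passes.gen [BraidedCategory 𝓜] [MonoidalPreadditive 𝓜] (hP : Passes T.L P) (hT : T.Facts)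
    (h : ∀ (X : T.Hyp) (s i : ℕ), P i (T.prim X ⊗ pow T.L s)) {M : 𝓜} (hM : T.Gen M) (i : ℕ) :
    P i M :=
  hP.cover i (covers_mono (covers_gen hT hM) (fun _ hN => hP.piece hT h hN i))

end Pool.Agent.Q200.HS
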