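import Pool.Agent.Q200.HS.Defs

/-!
# The p-adic Abel-Jacobi map on the motives of hypersurfaces: definitions
-/

open CategoryTheory MonoidalCategory

universe v u w w'

namespace Pool.Agent.Q200.HS

open Pool.Agent.Q28.HJ (pow)

/-- The data `MotData` for the Chow motives and the smooth hypersurfaces over a number field `K`,
together with the `p`-adic Abel-Jacobi maps, `p` being a fixed prime number. -/
structure AJData (𝓜 : Type u) [Category.{v} 𝓜] [MonoidalCategory 𝓜] extends
    MotData.{v, u, w} 𝓜 where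
  /-- the morphism of Chow motives is homologically trivial (acts as zero on cohomology); the
  homologically trivial morphisms `L^i → M` form the group `CH^i(M)^0` -/
  null : ∀ {M N : 𝓜}, (M ⟶ N) → Prop
  /-- the Galois cohomology group `H^1(K, V)`, `V` the `p`-adic cohomology of `M` of degree
  `2 i - 1`, twisted by `i` -/
  H1 : ℕ → 𝓜 → Type w'
  [grp : ∀ i M, AddCommGroup (H1 i M)]
  /-- the `p`-adic Abel-Jacobi map `AJ_p` on the homologically trivial `f` in
  `CH^i(M) = Hom(L^i, M)` -/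
  AJ : ∀ (i : ℕ) {M : 𝓜} (f : pow L i ⟶ M), null f → H1 i M
  /-- the homomorphism of the groups `H^1(K, -)` induced by a morphism of motives -/
  push : ∀ (i : ℕ) {M N : 𝓜}, (M ⟶ N) → H1 i M → H1 i N
  /-- the homomorphism given by the isomorphism of the cohomology of `M` of degree `2 i - 1`,
  twisted by `i`, and of the cohomology of `M ⊗ L` of degree `2 i + 1`, twisted by `i + 1` -/
  tw : ∀ (i : ℕ) {M : 𝓜}, H1 i M → H1 (i + 1) (M ⊗ L)

attribute [instance] AJData.grp

namespace AJData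

variable {𝓜 : Type u} [Category.{v} 𝓜] [MonoidalCategory 𝓜] (T : AJData.{v, u, w, w'} 𝓜)
  [Preadditive 𝓜]

/-- The `p`-adic Abel-Jacobi map is injective on `CH^i(M)^0`: its kernel is zero. -/
def Inj (i : ℕ) (M : 𝓜) : Prop :=
  ∀ (f : pow T.L i ⟶ M) (hf : T.null f), T.AJ i f hf = 0 → f = 0

/-- Known facts: those of `MotData.Facts`, and the following.
* `null_zero` to `null_tensor`: the homologically trivial morphisms form an ideal, compatible with
  the Tate twist.
* `add`, `push_add`, `tw_add`: the maps are homomorphisms.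
* `natural`, `twist`: the Abel-Jacobi map is compatible with morphisms of motives and with the Tate
  twist.
* `weight`, `galois`: a tensor product `M` of primitive motives, of weight `N`, has cohomology only in
  degree `N`. So all elements of `CH^i(M)` are homologically trivial if `2 i ≠ N`, and the target of
  the Abel-Jacobi map is zero if `2 i - 1 ≠ N`. -/
structure Facts : Prop where
  base : T.toMotData.Facts
  null_add : ∀ {M N : 𝓜} (f g : M ⟶ N), T.null f → T.null g → T.null (f + g)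
  null_comp : ∀ {M N P : 𝓜} (f : M ⟶ N) (g : N ⟶ P), T.null f → T.null (f ≫ g)
  comp_null : ∀ {M N P : 𝓜} (f : M ⟶ N) (g : N ⟶ P), T.null g → T.null (f ≫ g)
  null_tensor : ∀ {M N : 𝓜} (f : M ⟶ N), T.null f → T.null (f ▷ T.L)
  add : ∀ (i : ℕ) {M : 𝓜} (f g : pow T.L i ⟶ M) (hf : T.null f) (hg : T.null g)
    (hfg : T.null (f + g)), T.AJ i (f + g) hfg = T.AJ i f hf + T.AJ i g hg
  push_add : ∀ (i : ℕ) {M N : 𝓜} (g : M ⟶ N) (x y : T.H1 i M),
    T.push i g (x + y) = T.push i g x + T.push i g y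
  tw_add : ∀ (i : ℕ) {M : 𝓜} (x y : T.H1 i M), T.tw i (x + y) = T.tw i x + T.tw i y
  natural : ∀ (i : ℕ) {M N : 𝓜} (f : pow T.L i ⟶ M) (g : M ⟶ N) (hf : T.null f)
    (hfg : T.null (f ≫ g)), T.AJ i (f ≫ g) hfg = T.push i g (T.AJ i f hf)
  twist : ∀ (i : ℕ) {M : 𝓜} (f : pow T.L i ⟶ M) (hf : T.null f) (hf' : T.null (f ▷ T.L)),
    T.AJ (i + 1) (f ▷ T.L) hf' = T.tw i (T.AJ i f hf)
  weight : ∀ {N : ℕ} {M : 𝓜}, T.IsProd N M → ∀ i, 2 * i ≠ N → ∀ f : pow T.L i ⟶ M, T.null f
  galois : ∀ {N : ℕ} {M : 𝓜}, T.IsProd N M → ∀ i, 2 * i ≠ N + 1 → ∀ x : T.H1 i M, x = 0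

end AJData

/-- The set `S` of pairs `(n, d)` contains, for all `N, D ≥ 1` and for each parity, a pair `(n, d)`
with `n ≥ N` of the given parity and `d ≥ 1` divisible by `D`. -/
def BothCofinal (S : Set (ℕ × ℕ)) : Prop :=
  ∀ ε N D : ℕ, 0 < D → ∃ p ∈ S, p.1 % 2 = ε % 2 ∧ N ≤ p.1 ∧ D ∣ p.2 ∧ 0 < p.2

end Pool.Agent.Q200.HS
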