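import Pool.Agent.Q200.HS.ADefs
import Pool.Agent.Q200.HS.Test

/-!
# The p-adic Abel-Jacobi map on the motives of hypersurfaces
-/

open CategoryTheory MonoidalCategory

universe v u w w'

namespace Pool.Agent.Q200.HS

open Pool.Agent.Q28.HJ (pow powAdd retRight retLeft retIso shuffle)

/-- choice of the pair `(n, d)` -/
lemma choose_pair {S : Set (ℕ × ℕ)} (hS : BothCofinal S) {ω φ : ℕ → ℕ}
    (hω : Filter.Tendsto ω Filter.atTop Filter.atTop)
    (hφ : Filter.Tendsto φ Filter.atTop Filter.atTop) (a s i D : ℕ) (hD : 0 < D) :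
    ∃ n d k : ℕ, (n, d) ∈ S ∧ D ∣ d ∧ 0 < d ∧ n = a + 2 * (s + k) ∧ a ≤ ω n ∧
      2 * (i + k) ≤ n + φ n ∧ n ≤ 2 * (i + k) + φ n := by
  obtain ⟨N₀, hN₀⟩ := Filter.eventually_atTop.1 (hω.eventually_ge_atTop a)
  obtain ⟨N₁, hN₁⟩ := Filter.eventually_atTop.1 (hφ.eventually_ge_atTop (a + 2 * s + 2 * i))
  obtain ⟨⟨n, d⟩, hp, hpar, hn, hdvd, hd⟩ := hS a (N₀ + N₁ + a + 2 * s) D hD
  simp only at hpar hn hdvd hd
  have h0 := hN₀ n (by omega)
  have h1 := hN₁ n (by omega)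
  refine ⟨n, d, (n - a) / 2 - s, hp, hdvd, hd, by omega, h0, by omega, by omega⟩

namespace AJData

variable {𝓜 : Type u} [Category.{v} 𝓜] [Preadditive 𝓜] [MonoidalCategory 𝓜]
  {T : AJData.{v, u, w, w'} 𝓜}

lemma push_zero (hT : T.Facts) (i : ℕ) {M N : 𝓜} (g : M ⟶ N) : T.push i g (0 : T.H1 i M) = 0 := by
  have := hT.push_add i g 0 0
  rw [add_zero] at this
  exact left_eq_add.1 this

lemma tw_zero (hT : T.Facts) (i : ℕ) {M : 𝓜} : T.tw i (0 : T.H1 i M) = 0 := by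
  have := hT.tw_add i (0 : T.H1 i M) 0
  rw [add_zero] at this
  exact left_eq_add.1 this

lemma passes [MonoidalPreadditive 𝓜] (hT : T.Facts) : Passes T.L T.Inj where
  cover i M h := by
    obtain ⟨n, N, a, b, h1, h2⟩ := h
    intro f hf hf0
    have key : ∀ j, f ≫ a j = 0 := fun j =>
      h1 j (f ≫ a j) (hT.null_comp f (a j) hf)
        (by rw [hT.natural i f (a j) hf, hf0, push_zero hT])
    have : f = f ≫ 𝟙 M := (Category.comp_id _).symm
    rw [this, ← h2, Preadditive.comp_sum]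
    exact Finset.sum_eq_zero (fun j _ => by
      rw [← Category.assoc, key, Limits.zero_comp])
  untwist i M h := by
    intro f hf hf0
    apply hT.base.faithful
    rw [MonoidalPreadditive.zero_whiskerRight]
    exact h (f ▷ T.L) (hT.null_tensor f hf) (by rw [hT.twist i f hf, hf0, tw_zero hT])

variable [MonoidalPreadditive 𝓜] [BraidedCategory 𝓜]

/-- almost diagonal hypersurfaces suffice -/
lemma gen_of_diagonal (hT : T.Facts) (S : Set (ℕ × ℕ)) (hS : BothCofinal S) (ω φ : ℕ → ℕ)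
    (hω : Filter.Tendsto ω Filter.atTop Filter.atTop)
    (hφ : Filter.Tendsto φ Filter.atTop Filter.atTop)
    (h : ∀ X W : T.Hyp, Relation.ReflTransGen T.Susp X W → (T.dim W, T.deg W) ∈ S →
      T.dim X ≤ ω (T.dim W) → ∀ m, 2 * m ≤ T.dim W + φ (T.dim W) →
        T.dim W ≤ 2 * m + φ (T.dim W) → T.Inj m (T.mot W)) {M : 𝓜} (hM : T.Gen M) (i : ℕ) :
    T.Inj i M := by
  refine (passes hT).gen hT.base (fun X s i => ?_) hM i
  obtain ⟨n, d, k, h1, h2, h3, h4, h5, h6, h7⟩ := choose_pair hS hω hφ (T.dim X) s i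
    (2 * T.deg X) (by have := hT.base.deg_pos X; omega)
  refine (passes hT).hyp hT.base X h2 h3 h4 (fun X' W a1 a2 a3 a4 => ?_)
  obtain ⟨R⟩ := hT.base.summand W
  refine (passes hT).retract _ R (h X' W a2 ?_ ?_ _ ?_ ?_)
  · rw [a3, a4]; exact h1
  · rw [a1, a4]; exact h5
  · rw [a4]; exact h6
  · rw [a4]; exact h7

omit [MonoidalPreadditive 𝓜] [BraidedCategory 𝓜] in
lemma explicit (hT : T.Facts) {N : ℕ} {M : 𝓜} (hM : T.IsProd N M) :
    (∀ i, T.Inj i M) ↔ (∀ i, 2 * i ≠ N → 2 * i ≠ N + 1 → ∀ f : pow T.L i ⟶ M, f = 0) ∧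
      (∀ i, 2 * i = N → ∀ f : pow T.L i ⟶ M, T.null f → f = 0) ∧
        ∀ i, 2 * i = N + 1 → T.Inj i M := by
  constructor
  · intro h
    refine ⟨fun i h1 h2 f => ?_, fun i h1 f hf => ?_, fun i _ => h i⟩
    · exact h i f (hT.weight hM i h1 f) (hT.galois hM i h2 _)
    · exact h i f hf (hT.galois hM i (by omega) _)
  · rintro ⟨h1, h2, h3⟩ i
    by_cases e1 : 2 * i = N + 1
    · exact h3 i e1
    by_cases e2 : 2 * i = N
    · exact fun f hf _ => h2 i e2 f hf
    · exact fun f _ _ => h1 i e2 e1 f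

omit [MonoidalPreadditive 𝓜] [BraidedCategory 𝓜] in
/-- tensor products of primitive motives are in the class `Gen` -/
lemma gen_isProd (hT : T.Facts) {N : ℕ} {M : 𝓜} (hM : T.IsProd N M) : T.Gen M := by
  induction hM with
  | one X =>
    obtain ⟨R⟩ := hT.base.summand X
    exact .sum (n := 1) (fun _ => T.mot X) (fun _ => R.i) (fun _ => R.r) (fun _ => .mot X)
      (by simp)
  | tensor _ _ ih₁ ih₂ => exact .tensor ih₁ ih₂

/-- main theorem -/
theorem final (hT : T.Facts) (S : Set (ℕ × ℕ)) (hS : BothCofinal S) (ω φ : ℕ → ℕ)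
    (hω : Filter.Tendsto ω Filter.atTop Filter.atTop)
    (hφ : Filter.Tendsto φ Filter.atTop Filter.atTop) :
    [∀ X W : T.Hyp, Relation.ReflTransGen T.Susp X W → (T.dim W, T.deg W) ∈ S →
        T.dim X ≤ ω (T.dim W) → ∀ m, 2 * m ≤ T.dim W + φ (T.dim W) →
          T.dim W ≤ 2 * m + φ (T.dim W) → T.Inj m (T.mot W),
      ∀ (X : T.Hyp) (i : ℕ), T.Inj i (T.mot X),
      ∀ M : 𝓜, T.Gen M → ∀ i, T.Inj i M,
      ∀ (N : ℕ) (M : 𝓜), T.IsProd N M →
        (∀ i, 2 * i ≠ N → 2 * i ≠ N + 1 → ∀ f : pow T.L i ⟶ M, f = 0) ∧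
          (∀ i, 2 * i = N → ∀ f : pow T.L i ⟶ M, T.null f → f = 0) ∧
            ∀ i, 2 * i = N + 1 → T.Inj i M].TFAE := by
  tfae_have 1 → 3 := fun h M hM i => gen_of_diagonal hT S hS ω φ hω hφ h hM i
  tfae_have 3 → 2 := fun h X i => h _ (.mot X) i
  tfae_have 2 → 1 := fun h X W _ _ _ m _ _ => h W m
  tfae_have 3 → 4 := fun h N M hM => (explicit hT hM).1 (h M (gen_isProd hT hM))
  tfae_have 4 → 1 := by
    intro h X W _ _ _ m _ _
    have h1 : ∀ (X : T.Hyp) (s i : ℕ), T.Inj i (T.prim X ⊗ pow T.L s) := by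
      intro X s i
      -- `M_X ⊗ L^s` is a summand of a primitive motive of a hypersurface of larger dimension
      obtain ⟨X', W', -, -, -, -, ⟨R⟩⟩ := reach hT.base X (n := T.dim X + 2 * s)
        (d := 2 * T.deg X) (dvd_refl _) (by have := hT.base.deg_pos X; omega) rfl
      exact (passes hT).retract _ R ((explicit hT (.one W')).2 (h _ _ (.one W')) i)
    exact (passes hT).gen hT.base h1 (.mot W) m
  tfae_finish

end AJData

end Pool.Agent.Q200.HS
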