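import Pool.Agent.Q200.HS.Defs
import Pool.Agent.Q28.HJ.Main

/-!
# Reduction to almost diagonal hypersurfaces
-/

open CategoryTheory MonoidalCategory

universe v u w

namespace Pool.Agent.Q200.HS

open Pool.Agent.Q28.HJ (pow powAdd retRight retLeft retIso shuffle)

section

variable {𝓜 : Type u} [Category.{v} 𝓜] [Preadditive 𝓜]

lemma covers_of_retract {C : 𝓜 → Prop} {M N : 𝓜} (R : Retract M N) (hN : C N) : Covers C M :=
  ⟨1, fun _ => N, fun _ => R.i, fun _ => R.r, fun _ => hN, by simp⟩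

lemma covers_self {C : 𝓜 → Prop} {M : 𝓜} (hM : C M) : Covers C M :=
  covers_of_retract (retIso (Iso.refl M)) hM

lemma covers_mono {C C' : 𝓜 → Prop} {M : 𝓜} (h : Covers C M) (hC : ∀ N, C N → C' N) :
    Covers C' M := by
  obtain ⟨n, N, a, b, h1, h2⟩ := h
  exact ⟨n, N, a, b, fun j => hC _ (h1 j), h2⟩

/-- a version of `Covers` with an arbitrary finite index type -/
lemma covers_of_fintype {C : 𝓜 → Prop} {M : 𝓜} {ι : Type} [Fintype ι] (N : ι → 𝓜)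
    (a : ∀ j, M ⟶ N j) (b : ∀ j, N j ⟶ M) (hN : ∀ j, C (N j)) (h : ∑ j, a j ≫ b j = 𝟙 M) :
    Covers C M := by
  let e := (Fintype.equivFin ι).symm
  refine ⟨Fintype.card ι, fun j => N (e j), fun j => a (e j), fun j => b (e j),
    fun j => hN _, ?_⟩
  rw [← h]
  exact Equiv.sum_comp e (fun j => a j ≫ b j)

lemma covers_trans {C : 𝓜 → Prop} {M : 𝓜} {n : ℕ} (N : Fin n → 𝓜) (a : ∀ j, M ⟶ N j)
    (b : ∀ j, N j ⟶ M) (hN : ∀ j, Covers C (N j)) (h : ∑ j, a j ≫ b j = 𝟙 M) :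
    Covers C M := by
  choose k P c d hP hcd using hN
  refine covers_of_fintype (ι := Σ j : Fin n, Fin (k j)) (fun x => P x.1 x.2)
    (fun x => a x.1 ≫ c x.1 x.2) (fun x => d x.1 x.2 ≫ b x.1) (fun x => hP x.1 x.2) ?_
  rw [Fintype.sum_sigma, ← h]
  refine Finset.sum_congr rfl (fun j _ => ?_)
  have : ∀ x : Fin (k j), (a j ≫ c j x) ≫ d j x ≫ b j = a j ≫ (c j x ≫ d j x) ≫ b j :=
    fun x => by simp only [Category.assoc]
  simp only [this]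
  rw [← Preadditive.comp_sum, ← Preadditive.sum_comp, hcd, Category.id_comp]

variable [MonoidalCategory 𝓜] [MonoidalPreadditive 𝓜]

lemma covers_tensor {C : 𝓜 → Prop} {M M' : 𝓜} (hM : Covers C M) (hM' : Covers C M')
    (hC : ∀ A B, C A → C B → C (A ⊗ B)) : Covers C (M ⊗ M') := by
  obtain ⟨n, N, a, b, h1, h2⟩ := hM
  obtain ⟨n', N', a', b', h1', h2'⟩ := hM'
  refine covers_of_fintype (ι := Fin n × Fin n') (fun x => N x.1 ⊗ N' x.2)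
    (fun x => a x.1 ⊗ₘ a' x.2) (fun x => b x.1 ⊗ₘ b' x.2)
    (fun x => hC _ _ (h1 _) (h1' _)) ?_
  rw [Fintype.sum_prod_type]
  have : ∀ (x : Fin n) (y : Fin n'), (a x ⊗ₘ a' y) ≫ (b x ⊗ₘ b' y) =
      (a x ≫ b x) ⊗ₘ (a' y ≫ b' y) := fun x y => by
    rw [MonoidalCategory.tensorHom_comp_tensorHom]
  simp only [this]
  have h3 : ∀ x : Fin n, ∑ y : Fin n', (a x ≫ b x) ⊗ₘ (a' y ≫ b' y) =
      (a x ≫ b x) ⊗ₘ 𝟙 M' := fun x => by rw [← tensor_sum, h2']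
  simp only [h3]
  rw [← sum_tensor, h2, MonoidalCategory.id_tensorHom_id]

end

variable {𝓜 : Type u} [Category.{v} 𝓜] [Preadditive 𝓜] [MonoidalCategory 𝓜]
  {T : MotData.{v, u, w} 𝓜}

/-- iterated suspensions -/
lemma susps (hT : T.Facts) {X : T.Hyp} (hd : 2 ≤ T.deg X) (k : ℕ) :
    ∃ W, Relation.ReflTransGen T.Susp X W ∧ T.deg W = T.deg X ∧
      T.dim W = T.dim X + 2 * k ∧ Nonempty (Retract (T.prim X ⊗ pow T.L k) (T.prim W)) := by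
  induction k with
  | zero => exact ⟨X, .refl, rfl, rfl, ⟨retIso (ρ_ _)⟩⟩
  | succ k ih =>
    obtain ⟨W, h, a2, a3, ⟨R⟩⟩ := ih
    obtain ⟨W', h'⟩ := hT.susp W (a2 ▸ hd)
    obtain ⟨b2, b3, ⟨Q⟩⟩ := hT.susp_prop W W' h'
    refine ⟨W', h.tail h', b2.trans a2, by omega, ⟨?_⟩⟩
    exact ((retIso (α_ _ _ _).symm).trans (retRight R T.L)).trans Q

/-- covers followed by iterated suspensions reach large pairs `(n, d)` -/
lemma reach (hT : T.Facts) (X : T.Hyp) {n d : ℕ} (hd : 2 * T.deg X ∣ d) (hd0 : 0 < d) {k : ℕ}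
    (hn : n = T.dim X + 2 * k) : ∃ X' W : T.Hyp, T.dim X' = T.dim X ∧
      Relation.ReflTransGen T.Susp X' W ∧ T.deg W = d ∧ T.dim W = n ∧
        Nonempty (Retract (T.prim X ⊗ pow T.L k) (T.prim W)) := by
  obtain ⟨e, he⟩ := hd
  have hpos := hT.deg_pos X
  have he0 : 0 < 2 * e := by
    rcases Nat.eq_zero_or_pos e with h0 | h0
    · rw [h0] at he; omega
    · omega
  obtain ⟨X', a2, a3, ⟨R⟩⟩ := hT.cover X (2 * e) he0
  have hd3 : 2 ≤ T.deg X' := by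
    rw [a2]
    calc 2 ≤ 1 * (2 * e) := by omega
      _ ≤ _ := Nat.mul_le_mul_right _ hpos
  obtain ⟨W, b1, b2, b3, ⟨Q⟩⟩ := susps hT hd3 k
  refine ⟨X', W, a3, b1, ?_, by omega, ⟨(retRight R _).trans Q⟩⟩
  rw [b2, a2, he]
  ring

/-- products of hypersurfaces are dominated by hypersurfaces -/
lemma prod_retract [BraidedCategory 𝓜] (hT : T.Facts) {N : ℕ} {M : 𝓜} (h : T.IsProd N M) :
    ∃ D : ℕ, 0 < D ∧ ∀ E : ℕ, 0 < E → ∃ (W : T.Hyp) (s : ℕ), T.deg W = D * E ∧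
      T.dim W = N + 2 * s ∧ Nonempty (Retract (M ⊗ pow T.L s) (T.prim W)) := by
  induction h with
  | one X =>
    refine ⟨T.deg X, hT.deg_pos X, fun E hE => ?_⟩
    obtain ⟨X', h2, h3, ⟨R⟩⟩ := hT.cover X E hE
    exact ⟨X', 0, h2, by omega, ⟨(retIso (ρ_ _)).trans R⟩⟩
  | @tensor a b M N _ _ ih₁ ih₂ =>
    obtain ⟨D₁, hD₁, H₁⟩ := ih₁
    obtain ⟨D₂, hD₂, H₂⟩ := ih₂
    refine ⟨D₁ * D₂, Nat.mul_pos hD₁ hD₂, fun E hE => ?_⟩
    obtain ⟨W₁, s, a2, a3, ⟨R₁⟩⟩ := H₁ (D₂ * E) (Nat.mul_pos hD₂ hE)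
    obtain ⟨W₂, t, b2, b3, ⟨R₂⟩⟩ := H₂ (D₁ * E) (Nat.mul_pos hD₁ hE)
    obtain ⟨W, c2, c3, ⟨R⟩⟩ := hT.join W₁ W₂ (by rw [a2, b2]; ring)
    refine ⟨W, s + t + 1, by rw [c2, a2]; ring, by omega, ⟨?_⟩⟩
    have e₁ : (M ⊗ N) ⊗ pow T.L (s + t + 1) ≅ ((M ⊗ N) ⊗ pow T.L (s + t)) ⊗ T.L :=
      (α_ _ _ _).symm
    have e₂ : (M ⊗ N) ⊗ pow T.L (s + t) ≅ (M ⊗ pow T.L s) ⊗ (N ⊗ pow T.L t) :=
      (tensorLeft (M ⊗ N)).mapIso (powAdd T.L s t) ≪≫ (shuffle M _ N _).symm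
    have R₃ : Retract ((M ⊗ pow T.L s) ⊗ (N ⊗ pow T.L t)) (T.prim W₁ ⊗ T.prim W₂) :=
      (retRight R₁ _).trans (retLeft R₂ _)
    exact ((retIso e₁).trans (retRight ((retIso e₂).trans R₃) T.L)).trans R

/-- the object is a direct summand of a twisted tensor product of primitive motives -/
def Piece (T : MotData.{v, u, w} 𝓜) (N : 𝓜) : Prop :=
  ∃ (n s : ℕ) (M : 𝓜), T.IsProd n M ∧ Nonempty (Retract N (M ⊗ pow T.L s))

lemma piece_pow (hT : T.Facts) (j : ℕ) : Piece T (pow T.L j) := by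
  obtain ⟨Y, -, ⟨R⟩⟩ := hT.points
  exact ⟨_, j, _, .one Y, ⟨(retIso (λ_ _).symm).trans (retRight R _)⟩⟩

lemma piece_tensor [BraidedCategory 𝓜] {A B : 𝓜} (hA : Piece T A) (hB : Piece T B) :
    Piece T (A ⊗ B) := by
  obtain ⟨n, s, M, h1, ⟨R⟩⟩ := hA
  obtain ⟨m, t, N, h2, ⟨Q⟩⟩ := hB
  refine ⟨n + m, s + t, M ⊗ N, .tensor h1 h2, ⟨?_⟩⟩
  have e : (M ⊗ pow T.L s) ⊗ (N ⊗ pow T.L t) ≅ (M ⊗ N) ⊗ pow T.L (s + t) :=
    shuffle M _ N _ ≪≫ (tensorLeft (M ⊗ N)).mapIso (powAdd T.L s t).symm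
  exact ((retRight R _).trans (retLeft Q _)).trans (retIso e)

/-- the motives in the class `Gen` are covered by pieces -/
lemma covers_gen [BraidedCategory 𝓜] [MonoidalPreadditive 𝓜] (hT : T.Facts) {M : 𝓜}
    (h : T.Gen M) : Covers (Piece T) M := by
  induction h with
  | mot X =>
    refine covers_mono (hT.split X) ?_
    rintro N (rfl | ⟨j, rfl⟩)
    · exact ⟨_, 0, _, .one X, ⟨retIso (ρ_ _).symm⟩⟩
    · exact piece_pow hT j
  | unit => exact covers_self (piece_pow hT 0)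
  | lef =>
    have e : T.L ≅ pow T.L 1 := (λ_ _).symm
    exact covers_of_retract (retIso e) (piece_pow hT 1)
  | tensor _ _ ih₁ ih₂ => exact covers_tensor ih₁ ih₂ (fun A B => piece_tensor)
  | sum N a b _ hab ih => exact covers_trans N a b ih hab

end Pool.Agent.Q200.HS
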