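import Pool.Agent.Q28.HJ.Defs

/-!
# Motives of smooth hypersurfaces over a field: definitions
-/

open CategoryTheory MonoidalCategory

universe v u w

namespace Pool.Agent.Q200.HS

open Pool.Agent.Q28.HJ (pow)

section

variable {𝓜 : Type u} [Category.{v} 𝓜] [Preadditive 𝓜]

/-- `M` is a direct summand of a finite direct sum of objects of the class `C`: the identity of `M`
is a finite sum of morphisms `M → N_j → M` with `N_j` in `C`. -/
def Covers (C : 𝓜 → Prop) (M : 𝓜) : Prop :=
  ∃ (n : ℕ) (N : Fin n → 𝓜) (a : ∀ j, M ⟶ N j) (b : ∀ j, N j ⟶ M), (∀ j, C (N j)) ∧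
    ∑ j, a j ≫ b j = 𝟙 M

end

/-- The category `𝓜` (in the intended use: Chow motives over a field `k`, with rational coefficients)
and the smooth projective hypersurfaces over `k`: their dimensions, degrees and motives. -/
structure MotData (𝓜 : Type u) [Category.{v} 𝓜] where
  /-- the Lefschetz motive -/
  L : 𝓜
  /-- the smooth hypersurfaces `X` over `k` in the projective spaces `ℙ^(n+1)`, `n ≥ 0` -/
  Hyp : Type w
  /-- the dimension `n` -/
  dim : Hyp → ℕ
  /-- the degree -/
  deg : Hyp → ℕ
  /-- the motive of `X` -/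
  mot : Hyp → 𝓜
  /-- the *primitive motive* `M_X = (X, Δ - (1/d) ∑ h^j × h^(n-j))` of a smooth hypersurface `X` of
  dimension `n` and degree `d`; its cohomology is the primitive cohomology of `X`, of degree `n` -/
  prim : Hyp → 𝓜
  /-- the relation `Susp X W`: `X` has the equation `f(x) = 0` of degree `d ≥ 2`, and `W` is the
  *suspension* with the equation `f(x) + y^d - z^d = 0` -/
  Susp : Hyp → Hyp → Prop

namespace MotData

variable {𝓜 : Type u} [Category.{v} 𝓜] (T : MotData.{v, u, w} 𝓜)
  [Preadditive 𝓜] [MonoidalCategory 𝓜]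

/-- Known facts on the motives of smooth hypersurfaces over a field of characteristic zero.
* `summand`, `split`: the motive of `X` is the direct sum of `M_X` and of powers of the Lefschetz
  motive.
* `faithful`: the Lefschetz motive is invertible.
* `join` (Shioda, Katsura): for smooth hypersurfaces `X : f(x) = 0` and `Y : g(y) = 0` of the same
  degree `d`, `M_X ⊗ M_Y ⊗ L` is a direct summand of `M_W`, `W : f(x) + g(y) = 0`. (Take the family
  of the lines in `W` which join the points of `X` and of `Y`, `p : J → X × Y`, `q : J → W`; then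
  `p_* q^* q_* p^*` is multiplication by `-d` on `M_X ⊗ M_Y`.)
* `points`: the unit motive is a direct summand of the primitive motive of a set of two points.
* `susp`, `susp_prop`: the case where `Y` is the set of the points `y^d = z^d` of the line.
* `cover`: for a smooth hypersurface `X : f(x) = 0`, in general coordinates, and `e ≥ 1` the
  hypersurface `X' : f(x_0^e, x_1^e, …) = 0` is smooth and has a finite morphism to `X`. -/
structure Facts : Prop where
  summand : ∀ X : T.Hyp, Nonempty (Retract (T.prim X) (T.mot X))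
  split : ∀ X : T.Hyp, Covers (fun N => N = T.prim X ∨ ∃ j, N = pow T.L j) (T.mot X)
  faithful : ∀ {M N : 𝓜} (f g : M ⟶ N), f ▷ T.L = g ▷ T.L → f = g
  join : ∀ X Y : T.Hyp, T.deg X = T.deg Y → ∃ W, T.deg W = T.deg X ∧
    T.dim W = T.dim X + T.dim Y + 2 ∧
      Nonempty (Retract ((T.prim X ⊗ T.prim Y) ⊗ T.L) (T.prim W))
  points : ∃ Y : T.Hyp, T.dim Y = 0 ∧ Nonempty (Retract (𝟙_ 𝓜) (T.prim Y))
  susp : ∀ X : T.Hyp, 2 ≤ T.deg X → ∃ W, T.Susp X W
  susp_prop : ∀ X W : T.Hyp, T.Susp X W → T.deg W = T.deg X ∧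
    T.dim W = T.dim X + 2 ∧ Nonempty (Retract (T.prim X ⊗ T.L) (T.prim W))
  cover : ∀ (X : T.Hyp) (e : ℕ), 0 < e → ∃ X', T.deg X' = T.deg X * e ∧ T.dim X' = T.dim X ∧
    Nonempty (Retract (T.prim X) (T.prim X'))
  deg_pos : ∀ X : T.Hyp, 0 < T.deg X

/-- `M` is a tensor product of primitive motives of smooth hypersurfaces (of any dimensions and
degrees), the sum of the dimensions being `N`. Such an `M` has cohomology only in degree `N`. -/
inductive IsProd : ℕ → 𝓜 → Prop
  | one (X : T.Hyp) : IsProd (T.dim X) (T.prim X)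
  | tensor {a b : ℕ} {M N : 𝓜} (hM : IsProd a M) (hN : IsProd b N) : IsProd (a + b) (M ⊗ N)

/-- The motives which are obtained from the motives of smooth hypersurfaces, the unit motive and the
Lefschetz motive by tensor products, finite direct sums and direct summands; so all motives
`(X_1 × ⋯ × X_r, e, -j)`, `j ≥ 0`, for smooth hypersurfaces `X_1, …, X_r`. -/
inductive Gen : 𝓜 → Prop
  | mot (X : T.Hyp) : Gen (T.mot X)
  | unit : Gen (𝟙_ 𝓜)
  | lef : Gen T.L
  | tensor {M N : 𝓜} (hM : Gen M) (hN : Gen N) : Gen (M ⊗ N)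
  | sum {M : 𝓜} {n : ℕ} (N : Fin n → 𝓜) (a : ∀ j, M ⟶ N j) (b : ∀ j, N j ⟶ M)
      (hN : ∀ j, Gen (N j)) (hab : ∑ j, a j ≫ b j = 𝟙 M) : Gen M

/-- the motive of the product `X_1 × ⋯ × X_r` -/
def prod : List T.Hyp → 𝓜
  | [] => 𝟙_ 𝓜
  | X :: l => T.mot X ⊗ prod l

end MotData

end Pool.Agent.Q200.HS
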